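import Pool.Agent.H458R4.BasisC

/-!
# A finite basis for the `ℵ₁`-dense LOTS of countable character

Let `𝒞` be the class of the `ℵ₁`-dense linearly ordered spaces in which every point has countable
cofinality and coinitiality. It is shown that if the linear orders of size `ℵ₁` have a basis with
`n` elements for order embeddings, any two `ℵ₁`-dense sets of reals are isomorphic, and Suslin's
hypothesis holds, then `𝒞` has a basis with `n + 1` elements for LOTS embeddings.

All three hypotheses follow from the Proper Forcing Axiom, with `n = 5`, by theorems of Moore,
Baumgartner, and Solovay and Tennenbaum. So under PFA the class `𝒞` has a basis with six elements.

The basis consists of a real type and of the orders `T J`, for the members `J` of the given basis: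
`T J` is the set of the finite sequences of elements of `ω × J + ω* × J`, where the extensions of a
sequence `t` by the elements of the left part (right part) are placed to the left (right) of `t`
and converge to `t`. If `L` in `𝒞` has an interval in which each family of disjoint open intervals
is countable, then it contains the real type. If not, then, in a suitable interval, one and the
same `J` indexes pairwise disjoint open intervals between any two points, and this is used to
define a LOTS embedding of `T J` into `L` by recursion.
-/

namespace Pool.Agent.Results.MP_6f3246_lc.FiniteBasis

open Pool.Agent.H458R4.Basis

/-- If the linear orders of cardinality `ℵ₁` have a basis with `n` elements, any two `ℵ₁`-dense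
sets of reals are isomorphic, and Suslin's hypothesis holds, then the class of the `ℵ₁`-dense LOTS
in which every point has countable cofinality and coinitiality has a basis with `n + 1` elements
for LOTS embeddings. -/
theorem result (n : ℕ) (h1 : HasOrderBasis n) (h2 : BaumgartnerAxiom) (h3 : SuslinHypothesis) :
    HasLOTSBasis (n + 1) :=
  hasLOTSBasis h1 h2 h3

end Pool.Agent.Results.MP_6f3246_lc.FiniteBasis
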